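import Mathlib
import Pool.Agent.Q154.Crown

/-!
The order polytope of the face lattice of the 13-gon is not Ehrhart-nonnegative.

`Face n` is the face lattice of a convex polygon with `n` vertices: the empty face, the vertices
and edges (indexed by `ZMod n`, edge `i` joining the vertices `i` and `i + 1`), and the polygon
itself. The Ehrhart polynomial of its order polytope is computed for `n = 13` (degree 28) by
counting closed walks; its linear coefficient is negative.
-/

open Finset Polynomial

namespace Pool.Agent.Results.MP_a14af5_co.PolygonThirteen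

/-- The faces of a convex polygon with `n` vertices: the empty face, the vertices, the edges
(edge `i` joins the vertices `i` and `i + 1`, indices modulo `n`) and the polygon itself. -/
inductive Face (n : ℕ) : Type
  | bot : Face n
  | vert : ZMod n → Face n
  | edge : ZMod n → Face n
  | top : Face n

/-- Inclusion of faces: an edge contains exactly its two endpoints. -/
def Face.le {n : ℕ} : Face n → Face n → Prop
  | .bot, _ => True
  | .vert _, .bot => False
  | .vert i, .vert j => i = j
  | .vert i, .edge j => i = j ∨ i = j + 1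
  | .vert _, .top => True
  | .edge _, .bot => False
  | .edge _, .vert _ => False
  | .edge i, .edge j => i = j
  | .edge _, .top => True
  | .top, .bot => False
  | .top, .vert _ => False
  | .top, .edge _ => False
  | .top, .top => True

/-- The face lattice of the `n`-gon. -/
instance (n : ℕ) : PartialOrder (Face n) where
  le := Face.le
  le_refl := by
    intro a; cases a <;> simp [Face.le]
  le_trans := by
    intro a b c hab hbc
    cases a <;> cases b <;> cases c <;> simp_all [Face.le]
  le_antisymm := by
    intro a b hab hba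
    cases a <;> cases b <;> simp_all [Face.le]

/-- The order polytope of a poset. -/
def orderPolytope (P : Type) [PartialOrder P] : Set (P → ℝ) :=
  {x | (∀ a, 0 ≤ x a ∧ x a ≤ 1) ∧ ∀ a b, a ≤ b → x a ≤ x b}

open Pointwise in
/-- The number of integer points in the dilate by `t` of the order polytope. -/
noncomputable def latticeCount (P : Type) [PartialOrder P] (t : ℕ) : ℕ :=
  Nat.card {z : P → ℤ // (fun a => (z a : ℝ)) ∈ (t : ℝ) • orderPolytope P}

/-- `p` is the Ehrhart polynomial of the order polytope of `P`: its value at every natural number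
`t` is the number of integer points in the dilate by `t`. -/
def IsEhrhart (P : Type) [PartialOrder P] (p : ℚ[X]) : Prop :=
  ∀ t : ℕ, p.eval (t : ℚ) = latticeCount P t

open Pointwise in
theorem mem_iff (P : Type) [PartialOrder P] (t : ℕ) (z : P → ℤ) :
    (fun a => (z a : ℝ)) ∈ (t : ℝ) • orderPolytope P ↔
      (∀ a, 0 ≤ z a ∧ z a ≤ t) ∧ ∀ a b, a ≤ b → z a ≤ z b := by
  constructor
  · rintro ⟨x, ⟨hx1, hx2⟩, hx⟩
    have ht : (0 : ℝ) ≤ t := Nat.cast_nonneg t
    have he : ∀ a, (z a : ℝ) = t * x a := fun a => by
      have := congrFun hx a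
      simpa using this.symm
    refine ⟨fun a => ⟨?_, ?_⟩, fun a b hab => ?_⟩
    · have : (0 : ℝ) ≤ z a := by rw [he]; exact mul_nonneg ht (hx1 a).1
      exact_mod_cast this
    · have : (z a : ℝ) ≤ t := by
        rw [he]
        calc (t : ℝ) * x a ≤ t * 1 := mul_le_mul_of_nonneg_left (hx1 a).2 ht
          _ = t := mul_one _
      exact_mod_cast this
    · have : (z a : ℝ) ≤ z b := by
        rw [he, he]; exact mul_le_mul_of_nonneg_left (hx2 a b hab) ht
      exact_mod_cast this
  · rintro ⟨h1, h2⟩
    rcases Nat.eq_zero_or_pos t with rfl | ht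
    · refine ⟨fun _ => 0, ⟨fun a => ⟨le_rfl, zero_le_one⟩, fun a b _ => le_rfl⟩, ?_⟩
      funext a
      have : z a = 0 := by have := h1 a; simp at this; omega
      simp [this]
    · have ht' : (0 : ℝ) < t := by exact_mod_cast ht
      refine ⟨fun a => (z a : ℝ) / t, ⟨fun a => ⟨?_, ?_⟩, fun a b hab => ?_⟩, ?_⟩
      · have : (0 : ℝ) ≤ z a := by exact_mod_cast (h1 a).1
        positivity
      · rw [div_le_one ht']
        exact_mod_cast (h1 a).2
      · have : (z a : ℝ) ≤ z b := by exact_mod_cast h2 a b hab
        exact div_le_div_of_nonneg_right this ht'.le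
      · funext a
        simp only [Pi.smul_apply, smul_eq_mul]
        field_simp

theorem latticeCount_eq (P : Type) [PartialOrder P] (t : ℕ) :
    latticeCount P t = Nat.card (P →o Fin (t + 1)) := by
  unfold latticeCount
  refine Nat.card_congr
    { toFun := fun z => ⟨fun a => ⟨(z.1 a).toNat, ?_⟩, ?_⟩
      invFun := fun f => ⟨fun a => ((f a : ℕ) : ℤ), ?_⟩
      left_inv := ?_
      right_inv := ?_ }
  · have := ((mem_iff P t z.1).1 z.2).1 a
    omega
  · intro a b hab
    have := ((mem_iff P t z.1).1 z.2).2 a b hab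
    rw [Fin.le_def]
    exact Int.toNat_le_toNat this
  · rw [mem_iff]
    refine ⟨fun a => ⟨by positivity, ?_⟩, fun a b hab => ?_⟩
    · have := (f a).isLt
      omega
    · have := f.monotone hab
      rw [Fin.le_def] at this
      exact_mod_cast this
  · intro z
    apply Subtype.ext
    funext a
    have := ((mem_iff P t z.1).1 z.2).1 a
    show (((z.1 a).toNat : ℕ) : ℤ) = z.1 a
    omega
  · intro f
    apply OrderHom.ext
    funext a
    apply Fin.ext
    simp

/-- equivalence -/
def faceEquiv (n : ℕ) : Face n ≃ (Unit ⊕ ZMod n) ⊕ (ZMod n ⊕ Unit) where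
  toFun
    | .bot => Sum.inl (Sum.inl ())
    | .vert i => Sum.inl (Sum.inr i)
    | .edge i => Sum.inr (Sum.inl i)
    | .top => Sum.inr (Sum.inr ())
  invFun
    | Sum.inl (Sum.inl _) => .bot
    | Sum.inl (Sum.inr i) => .vert i
    | Sum.inr (Sum.inl i) => .edge i
    | Sum.inr (Sum.inr _) => .top
  left_inv := by intro a; cases a <;> rfl
  right_inv := by rintro ((_ | _) | (_ | _)) <;> rfl

theorem face_finite (n : ℕ) [NeZero n] : Finite (Face n) :=
  Finite.of_equiv _ (faceEquiv n).symm

theorem face_card (n : ℕ) [NeZero n] : Nat.card (Face n) = 2 * n + 2 := by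
  rw [Nat.card_congr (faceEquiv n)]
  simp
  ring

/-- the fibre over fixed bottom and top values -/
theorem fibre (n t b T : ℕ) (hT : T ≤ t) (hb : b ≤ T) :
    Nonempty ({f : Face n →o Fin (t + 1) // (f Face.bot : ℕ) = b ∧ (f Face.top : ℕ) = T} ≃
      {ve : (ZMod n → Fin (T - b + 1)) × (ZMod n → Fin (T - b + 1)) //
        ∀ i, ve.1 i ≤ ve.2 i ∧ ve.1 (i + 1) ≤ ve.2 i}) := by
  have lo : ∀ (f : Face n →o Fin (t + 1)) (x : Face n), (f Face.bot : ℕ) ≤ f x := by
    intro f x
    have : (Face.bot : Face n) ≤ x := by show Face.le _ _; cases x <;> simp [Face.le]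
    exact Fin.le_def.1 (f.monotone this)
  have hi : ∀ (f : Face n →o Fin (t + 1)) (x : Face n), (f x : ℕ) ≤ f Face.top := by
    intro f x
    have : x ≤ (Face.top : Face n) := by show Face.le _ _; cases x <;> simp [Face.le]
    exact Fin.le_def.1 (f.monotone this)
  refine ⟨
    { toFun := fun f => ⟨(fun i => ⟨(f.1 (Face.vert i) : ℕ) - b, ?_⟩,
        fun i => ⟨(f.1 (Face.edge i) : ℕ) - b, ?_⟩), ?_⟩
      invFun := fun g => ⟨⟨fun x => match x with
        | .bot => ⟨b, ?_⟩
        | .vert i => ⟨(g.1.1 i : ℕ) + b, ?_⟩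
        | .edge i => ⟨(g.1.2 i : ℕ) + b, ?_⟩
        | .top => ⟨T, ?_⟩, ?_⟩, ?_⟩
      left_inv := ?_
      right_inv := ?_ }⟩
  · have := hi f.1 (Face.vert i); have := f.2.2; omega
  · have := hi f.1 (Face.edge i); have := f.2.2; omega
  · intro i
    have h1 : (Face.vert i : Face n) ≤ Face.edge i := by show Face.le _ _; simp [Face.le]
    have h2 : (Face.vert (i + 1) : Face n) ≤ Face.edge i := by show Face.le _ _; simp [Face.le]
    have h3 := Fin.le_def.1 (f.1.monotone h1)
    have h4 := Fin.le_def.1 (f.1.monotone h2)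
    simp only [Fin.le_def]
    omega
  · omega
  · have := (g.1.1 i).isLt; omega
  · have := (g.1.2 i).isLt; omega
  · omega
  · intro x y hxy
    have hxy' : Face.le x y := hxy
    cases x with
    | bot =>
      cases y with
      | bot => exact le_rfl
      | vert j => rw [Fin.le_def]; show b ≤ (g.1.1 j : ℕ) + b; omega
      | edge j => rw [Fin.le_def]; show b ≤ (g.1.2 j : ℕ) + b; omega
      | top => rw [Fin.le_def]; exact hb
    | vert i =>
      cases y with
      | bot => exact absurd hxy' (by simp [Face.le])
      | vert j =>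
        have : i = j := hxy'
        subst this; exact le_rfl
      | edge j =>
        have h : i = j ∨ i = j + 1 := hxy'
        rw [Fin.le_def]
        show (g.1.1 i : ℕ) + b ≤ (g.1.2 j : ℕ) + b
        rcases h with rfl | rfl
        · have := Fin.le_def.1 (g.2 i).1; omega
        · have := Fin.le_def.1 (g.2 j).2; omega
      | top =>
        rw [Fin.le_def]
        show (g.1.1 i : ℕ) + b ≤ T
        have := (g.1.1 i).isLt; omega
    | edge i =>
      cases y with
      | bot => exact absurd hxy' (by simp [Face.le])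
      | vert j => exact absurd hxy' (by simp [Face.le])
      | edge j =>
        have : i = j := hxy'
        subst this; exact le_rfl
      | top =>
        rw [Fin.le_def]
        show (g.1.2 i : ℕ) + b ≤ T
        have := (g.1.2 i).isLt; omega
    | top =>
      cases y with
      | bot => exact absurd hxy' (by simp [Face.le])
      | vert j => exact absurd hxy' (by simp [Face.le])
      | edge j => exact absurd hxy' (by simp [Face.le])
      | top => exact le_rfl
  · exact ⟨rfl, rfl⟩
  · intro f
    apply Subtype.ext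
    apply OrderHom.ext
    funext x
    apply Fin.ext
    have h1 := f.2.1
    have h2 := f.2.2
    cases x with
    | bot => exact h1.symm
    | vert i =>
      have := lo f.1 (Face.vert i)
      show (f.1 (Face.vert i) : ℕ) - b + b = f.1 (Face.vert i)
      omega
    | edge i =>
      have := lo f.1 (Face.edge i)
      show (f.1 (Face.edge i) : ℕ) - b + b = f.1 (Face.edge i)
      omega
    | top => exact h2.symm
  · intro g
    apply Subtype.ext
    apply Prod.ext
    · funext i
      apply Fin.ext
      show (g.1.1 i : ℕ) + b - b = g.1.1 i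
      omega
    · funext i
      apply Fin.ext
      show (g.1.2 i : ℕ) + b - b = g.1.2 i
      omega

theorem card_face (m t : ℕ) :
    Nat.card (Face (m + 1) →o Fin (t + 1)) =
      ∑ b ∈ range (t + 1), ∑ T ∈ range (t + 1),
        if b ≤ T then Q154.Crown.closed (2 * (m + 1)) (T - b + 1) else 0 := by
  classical
  have hfin : Finite (Face (m + 1)) := face_finite (m + 1)
  have hF : Finite (Face (m + 1) →o Fin (t + 1)) :=
    Finite.of_injective (fun f => (f : Face (m + 1) → Fin (t + 1))) DFunLike.coe_injective
  let rg : (Face (m + 1) →o Fin (t + 1)) → Fin (t + 1) × Fin (t + 1) :=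
    fun f => (f Face.bot, f Face.top)
  have e : (Face (m + 1) →o Fin (t + 1)) ≃
      Σ y : Fin (t + 1) × Fin (t + 1), {f : Face (m + 1) →o Fin (t + 1) // rg f = y} :=
    (Equiv.sigmaFiberEquiv rg).symm
  rw [Nat.card_congr e, Nat.card_sigma, Fintype.sum_prod_type, Finset.sum_range]
  refine sum_congr rfl fun b _ => ?_
  rw [Finset.sum_range]
  refine sum_congr rfl fun T _ => ?_
  have e2 : {f : Face (m + 1) →o Fin (t + 1) // rg f = (b, T)} ≃
      {f : Face (m + 1) →o Fin (t + 1) // (f Face.bot : ℕ) = b ∧ (f Face.top : ℕ) = T} := by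
    refine Equiv.subtypeEquivRight fun f => ?_
    simp [rg, Prod.ext_iff, Fin.ext_iff]
  rw [Nat.card_congr e2]
  split_ifs with h
  · obtain ⟨e3⟩ := fibre (m + 1) t b T (by have := T.isLt; omega) h
    rw [Nat.card_congr e3, ← Q154.Crown.card_crown m (T - b + 1)]
    rfl
  · have : IsEmpty {f : Face (m + 1) →o Fin (t + 1) //
        (f Face.bot : ℕ) = b ∧ (f Face.top : ℕ) = T} := by
      constructor
      rintro ⟨f, h1, h2⟩
      have h3 : (Face.bot : Face (m + 1)) ≤ Face.top := by show Face.le _ _; simp [Face.le]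
      have h4 := Fin.le_def.1 (f.monotone h3)
      omega
    exact Nat.card_of_isEmpty

/-- the explicit Ehrhart polynomial for `n = 13` -/
noncomputable def explicitPoly : ℚ[X] :=
  ∑ i ∈ range 29, C ((Q154.Crown.num.getD i 0 : ℚ) / (Q154.Crown.den : ℚ)) * X ^ i

theorem unique_of_isEhrhart {P : Type} [PartialOrder P] {p q : ℚ[X]} (hp : IsEhrhart P p)
    (hq : IsEhrhart P q) : p = q := by
  apply Polynomial.eq_of_infinite_eval_eq
  refine Set.Infinite.mono (s := Set.range (fun t : ℕ => (t : ℚ))) ?_
    (Set.infinite_range_of_injective Nat.cast_injective)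
  rintro _ ⟨t, rfl⟩
  show p.eval (t : ℚ) = q.eval (t : ℚ)
  rw [hp t, hq t]

theorem exists_ehrhart (n : ℕ) [NeZero n] :
    ∃ p : ℚ[X], p.natDegree ≤ 2 * n + 2 ∧ IsEhrhart (Face n) p := by
  have hfin : Finite (Face n) := face_finite n
  obtain ⟨p, hp, hv⟩ := Q154.Crown.exists_poly (Face n)
  rw [face_card] at hp
  refine ⟨p, hp, fun t => ?_⟩
  rw [hv, latticeCount_eq]

theorem explicit_eval (t : ℕ) (ht : t < 29) :
    explicitPoly.eval (t : ℚ) = latticeCount (Face 13) t := by
  have h1 : (latticeCount (Face 13) t : ℚ) = (Q154.Crown.tot t : ℚ) := by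
    rw [latticeCount_eq, card_face 12 t, Q154.Crown.tot]
    congr 1
    refine sum_congr rfl fun b _ => sum_congr rfl fun T hT => ?_
    have hT' := mem_range.1 hT
    split_ifs with h
    · exact Q154.Crown.cv_get (T - b) (by omega)
    · rfl
  rw [h1, explicitPoly, Polynomial.eval_finsetSum]
  simp only [eval_mul, eval_C, eval_pow, eval_X]
  have h2 := Q154.Crown.tot_eq t ht
  have h3 : ((∑ i ∈ range 29, Q154.Crown.num.getD i 0 * (t : ℤ) ^ i : ℤ) : ℚ) =
      (((Q154.Crown.den : ℤ) * Q154.Crown.tot t : ℤ) : ℚ) := by rw [h2]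
  push_cast at h3
  have h4 : (Q154.Crown.den : ℚ) ≠ 0 := by norm_num [Q154.Crown.den]
  have h5 : ∑ i ∈ range 29, (Q154.Crown.num.getD i 0 : ℚ) / (Q154.Crown.den : ℚ) * (t : ℚ) ^ i =
      (∑ i ∈ range 29, (Q154.Crown.num.getD i 0 : ℚ) * (t : ℚ) ^ i) / (Q154.Crown.den : ℚ) := by
    rw [sum_div]
    refine sum_congr rfl fun i _ => ?_
    ring
  rw [h5, h3]
  field_simp

theorem explicit_isEhrhart : IsEhrhart (Face 13) explicitPoly := by
  obtain ⟨p, hp, hv⟩ := exists_ehrhart 13
  have hd : explicitPoly.natDegree ≤ 28 := by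
    unfold explicitPoly
    refine natDegree_sum_le_of_forall_le _ _ fun i hi => ?_
    refine (natDegree_C_mul_X_pow_le _ _).trans ?_
    have := mem_range.1 hi
    omega
  have : explicitPoly = p := by
    refine Polynomial.eq_of_natDegree_lt_card_of_eval_eq' _ _
      ((range 29).image (fun t : ℕ => (t : ℚ))) ?_ ?_
    · intro x hx
      obtain ⟨t, ht, rfl⟩ := mem_image.1 hx
      rw [explicit_eval t (mem_range.1 ht), hv t]
    · rw [card_image_of_injective _ Nat.cast_injective, card_range]
      exact max_lt (by omega) (by omega)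
  rw [this]
  exact hv

theorem explicit_coeff : explicitPoly.coeff 1 = -298495711 / 35302608 := by
  unfold explicitPoly
  rw [finsetSum_coeff]
  simp only [coeff_C_mul, coeff_X_pow]
  rw [Finset.sum_eq_single 1]
  · norm_num [Q154.Crown.num, Q154.Crown.den]
  · intro i _ hi
    simp [hi.symm]
  · intro h
    simp at h

/-- The order polytope of the face lattice of a convex polygon is not always Ehrhart-nonnegative:
every such polytope has a unique Ehrhart polynomial, and for the 13-gon its linear coefficient is
`-298495711 / 35302608`. -/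
theorem result :
    (∀ n : ℕ, 3 ≤ n → ∃! p : ℚ[X], IsEhrhart (Face n) p) ∧
      (∀ p : ℚ[X], IsEhrhart (Face 13) p → p.coeff 1 = -298495711 / 35302608) ∧
      ¬ ∀ n : ℕ, 3 ≤ n → ∀ p : ℚ[X], IsEhrhart (Face n) p → ∀ i, 0 ≤ p.coeff i := by
  refine ⟨fun n hn => ?_, fun p hp => ?_, fun h => ?_⟩
  · have : NeZero n := ⟨by omega⟩
    obtain ⟨p, -, hp⟩ := exists_ehrhart n
    exact ⟨p, hp, fun q hq => unique_of_isEhrhart hq hp⟩
  · rw [unique_of_isEhrhart hp explicit_isEhrhart, explicit_coeff]
  · have := h 13 (by norm_num) explicitPoly explicit_isEhrhart 1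
    rw [explicit_coeff] at this
    norm_num at this

end Pool.Agent.Results.MP_a14af5_co.PolygonThirteen
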